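import Mathlib
import Pool.Agent.H17.IIC.Final

/-!
# Zero density of the incipient infinite cluster on Cayley graphs

All definitions used by the statement are in this file; the proof is in
`Pool/Agent/H17/IIC`, `Pool/Agent/H97/IIC` and `Pool/Agent/H91/IIC`.
-/

open MeasureTheory Set Filter Topology
open scoped ENNReal Classical BoundedContinuousFunction

namespace Pool.Agent.Results.MP_eba14c_pr.ZeroDensity

/-- The law of the state of one edge: `true` (open) with probability `p`, `false` (closed) with
probability `1 - p`. -/
noncomputable def edgeLaw (p : unitInterval) : Measure Bool :=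
  ENNReal.ofReal (p : ℝ) • Measure.dirac true + ENNReal.ofReal (1 - (p : ℝ)) • Measure.dirac false

/-- Bernoulli bond percolation of parameter `p`: independent states, one for each unordered pair of
vertices (the states of the pairs which are not edges of the graph under consideration are never
used). -/
noncomputable def percolation (V : Type*) (p : unitInterval) : Measure (Sym2 V → Bool) :=
  Measure.infinitePi (fun _ : Sym2 V => edgeLaw p)

/-- The graph of the open edges of `G` in the configuration `ω`. -/
def openGraph {V : Type*} (G : SimpleGraph V) (ω : Sym2 V → Bool) : SimpleGraph V where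
  Adj x y := G.Adj x y ∧ ω s(x, y) = true
  symm := ⟨fun x y h => ⟨h.1.symm, by rw [Sym2.eq_swap]; exact h.2⟩⟩
  loopless := ⟨fun x h => G.loopless.irrefl x h.1⟩

/-- The vertex set of the open cluster of `x`. -/
def cluster {V : Type*} (G : SimpleGraph V) (ω : Sym2 V → Bool) (x : V) : Set V :=
  {y | (openGraph G ω).Reachable x y}

/-- The critical parameter `p_c`: the infimum of the `q ∈ [0, 1]` for which the cluster of the
identity is infinite with positive probability. -/
noncomputable def criticalValue {Γ : Type*} [Group Γ] (G : SimpleGraph Γ) : ℝ :=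
  sInf {q : ℝ | ∃ h : q ∈ Set.Icc (0 : ℝ) 1,
    percolation Γ ⟨q, h⟩ {ω | (cluster G ω 1).Infinite} ≠ 0}

/-- The space of subgraphs of a graph with vertex set `Γ`: indicator functions of the vertex set
and of the edge set, with the product topology. -/
abbrev Subgraphs (Γ : Type*) := (Γ → Bool) × (Sym2 Γ → Bool)

/-- The open cluster of the identity (its vertices and its open edges) translated by `ρ⁻¹`. -/
noncomputable def translatedCluster {Γ : Type*} [Group Γ] (G : SimpleGraph Γ) (ρ : Γ)
    (ω : Sym2 Γ → Bool) : Subgraphs Γ :=
  (fun v => decide (ρ * v ∈ cluster G ω 1),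
   fun e => decide (e.map (fun v => ρ * v) ∈ (openGraph G ω).edgeSet ∧
      ∀ v ∈ e, ρ * v ∈ cluster G ω 1))

/-- The law of the rerooted cluster: percolation is conditioned on the event that the cluster `C_n`
of the identity reaches the sphere of radius `n` about the identity, a vertex `ρ` is chosen in `C_n`
with probability `1 / |C_n|` each, and `C_n` is translated by `ρ⁻¹`. (An infinite `C_n` has no
uniform vertex; the formula gives it weight `0`.) -/
noncomputable def rerootedLaw {Γ : Type*} [Group Γ] (G : SimpleGraph Γ) (p : unitInterval) (n : ℕ) :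
    Measure (Subgraphs Γ) :=
  Measure.sum fun ρ : Γ =>
    ((ProbabilityTheory.cond (percolation Γ p) {ω | ∃ z ∈ cluster G ω 1, G.dist 1 z = n}).withDensity
      (fun ω => if ρ ∈ cluster G ω 1 then ((cluster G ω 1).encard : ℝ≥0∞)⁻¹ else 0)).map
      (translatedCluster G ρ)

/-- `Q` is the law of an incipient infinite cluster at the parameter `p`: a probability measure
which is a subsequential weak limit of the laws of the rerooted clusters. -/
def IsIIC {Γ : Type*} [Group Γ] (G : SimpleGraph Γ) (p : unitInterval)
    (Q : Measure (Subgraphs Γ)) : Prop :=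
  IsProbabilityMeasure Q ∧ ∃ n : ℕ → ℕ, StrictMono n ∧
    ∀ f : Subgraphs Γ →ᵇ ℝ, Tendsto (fun j => ∫ W, f W ∂(rerootedLaw G p (n j))) atTop
      (𝓝 (∫ W, f W ∂Q))

/-- For every finitely generated infinite group, every finite generating set `S` and every
incipient infinite cluster of the Cayley graph at `p_c`, the probability that a vertex `v` belongs
to the incipient infinite cluster tends to `0` as the distance of `v` to the identity tends to
infinity. -/
theorem result {Γ : Type*} [Group Γ] [Infinite Γ] (S : Set Γ) (hfin : S.Finite)
    (hgen : Subgroup.closure S = ⊤) (p : unitInterval)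
    (hp : (p : ℝ) = criticalValue (SimpleGraph.mulCayley S)) (Q : Measure (Subgraphs Γ))
    (hQ : IsIIC (SimpleGraph.mulCayley S) p Q) :
    Tendsto (fun v : Γ => Q {W | W.1 v = true})
      (comap (fun v : Γ => (SimpleGraph.mulCayley S).dist 1 v) atTop) (𝓝 0) := by
  have hG := Pool.Agent.H17.IIC.cayleyLike_mulCayley hfin hgen
  have hc := hG.countable
  have hcrit : Pool.Agent.H17.IIC.IsCritical (SimpleGraph.mulCayley S) p :=
    Pool.Agent.H17.IIC.isCritical_of_pc hG hp
  have key := Pool.Agent.H17.IIC.zeroDensity hG p hcrit Q hQ
  rw [ENNReal.tendsto_nhds_zero]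
  intro ε hε
  obtain ⟨R, hR⟩ := key ε hε
  exact Filter.eventually_comap.2 (Filter.eventually_atTop.2
    ⟨R, fun b hb v hv => hR v (by rw [hv]; exact hb)⟩)

end Pool.Agent.Results.MP_eba14c_pr.ZeroDensity
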